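import Mathlib

set_option autoImplicit false

/-! # Counting solutions modulo `p` of equations in the coordinates of polynomial automorphisms of `ℤ^d` -/

namespace Pool.Agent.Q318.CO

open MvPolynomial

section general

variable {d p : ℕ} [hp : Fact p.Prime]

/-- a coordinate prescribed as a function of the others -/
lemma fib_mul (i : Fin d) (E : (Fin d → ZMod p) → Prop) (φ : (Fin d → ZMod p) → ZMod p)
    (hE : ∀ x t, E (Function.update x i t) ↔ E x) (hφ : ∀ x t, φ (Function.update x i t) = φ x) :
    p * Nat.card {x // E x ∧ x i = φ x} = Nat.card {x // E x} := by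
  classical
  have e : {x // E x} ≃ ZMod p × {x // E x ∧ x i = φ x} :=
    { toFun := fun x => (x.1 i, ⟨Function.update x.1 i (φ x.1), (hE _ _).2 x.2, by
        rw [Function.update_self, hφ]⟩)
      invFun := fun y => ⟨Function.update y.2.1 i y.1, (hE _ _).2 y.2.2.1⟩
      left_inv := by
        rintro ⟨x, hx⟩
        simp
      right_inv := by
        rintro ⟨t, x, hx1, hx2⟩
        ext j
        · simp
        · simp only [hφ, Function.update_idem, ← hx2, Function.update_eq_self] }
  rw [Nat.card_congr e, Nat.card_prod, Nat.card_zmod]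

lemma card_all : Nat.card (Fin d → ZMod p) = p ^ d := by
  rw [Nat.card_eq_fintype_card, Fintype.card_fun, ZMod.card, Fintype.card_fin]

lemma card_le_all (E : (Fin d → ZMod p) → Prop) : Nat.card {x // E x} ≤ p ^ d := by
  rw [← card_all (d := d) (p := p)]
  exact Nat.card_le_card_of_injective (fun x : {x // E x} => x.1) Subtype.val_injective

lemma card_mono {E F : (Fin d → ZMod p) → Prop} (h : ∀ x, E x → F x) :
    Nat.card {x // E x} ≤ Nat.card {x // F x} :=
  Nat.card_le_card_of_injective (fun x : {x // E x} => (⟨x.1, h x.1 x.2⟩ : {x // F x}))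
    (fun x y hxy => Subtype.ext (by simpa using hxy))

lemma card_coord (i : Fin d) (r : ZMod p) :
    p * Nat.card {x : Fin d → ZMod p // x i = r} = p ^ d := by
  have h := fib_mul (p := p) i (fun _ => True) (fun _ => r) (fun _ _ => Iff.rfl) (fun _ _ => rfl)
  simp only [true_and] at h
  rw [h]
  have e : {x : Fin d → ZMod p // True} ≃ (Fin d → ZMod p) := Equiv.Set.univ _
  rw [Nat.card_congr e, card_all]

/-- zeros of a nonzero polynomial -/
lemma zeros_le (Q : MvPolynomial (Fin d) (ZMod p)) (hQ : Q ≠ 0) (D : ℕ) (hD : Q.totalDegree ≤ D) :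
    p * Nat.card {x : Fin d → ZMod p // eval x Q = 0} ≤ D * p ^ d := by
  classical
  have h1 := MvPolynomial.schwartz_zippel_totalDegree hQ (Finset.univ : Finset (ZMod p))
  rw [Finset.card_univ, ZMod.card] at h1
  have h2 : (Fintype.piFinset (fun _ : Fin d => (Finset.univ : Finset (ZMod p)))).filter
      (fun f => MvPolynomial.eval f Q = 0) =
      Finset.univ.filter (fun x : Fin d → ZMod p => MvPolynomial.eval x Q = 0) := by
    ext x
    simp
  have hpQ : (0 : ℚ≥0) < p := by exact_mod_cast hp.out.pos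
  rw [div_le_div_iff₀ (by positivity) hpQ, h2] at h1
  have h3 : ((Finset.univ.filter (fun x : Fin d → ZMod p => MvPolynomial.eval x Q = 0)).card) * p ≤
        Q.totalDegree * p ^ d := by
    exact_mod_cast h1
  have h4 : Nat.card {x : Fin d → ZMod p // eval x Q = 0} =
      (Finset.univ.filter (fun x : Fin d → ZMod p => MvPolynomial.eval x Q = 0)).card := by
    rw [Nat.card_eq_fintype_card, Fintype.card_subtype]
  rw [h4, mul_comm]
  exact h3.trans (Nat.mul_le_mul_right _ hD)

/-- substitution of a constant for a variable -/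
noncomputable def sub (i : Fin d) (r : ZMod p) : MvPolynomial (Fin d) (ZMod p) →ₐ[ZMod p] MvPolynomial (Fin d) (ZMod p) :=
  aeval (fun k => if k = i then C r else X k)

lemma sub_eval (i : Fin d) (r : ZMod p) (P : MvPolynomial (Fin d) (ZMod p)) (x : Fin d → ZMod p) :
    eval x (sub i r P) = eval (Function.update x i r) P := by
  have h : (eval x).comp (sub i r : _ →ₐ[ZMod p] _).toRingHom = eval (Function.update x i r) := by
    apply MvPolynomial.ringHom_ext
    · intro a
      simp [sub]
    · intro k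
      by_cases hk : k = i
      · subst hk
        simp [sub]
      · simp [sub, hk]
  have := congrArg (fun f => f P) h
  simpa using this

lemma sub_dvd (i : Fin d) (r : ZMod p) (P : MvPolynomial (Fin d) (ZMod p)) :
    (X i - C r) ∣ (P - sub i r P) := by
  rw [← Ideal.mem_span_singleton, ← Ideal.Quotient.eq]
  have h : (Ideal.Quotient.mkₐ (ZMod p) (Ideal.span {(X i - C r : MvPolynomial (Fin d) (ZMod p))})) =
      (Ideal.Quotient.mkₐ (ZMod p) (Ideal.span {(X i - C r : MvPolynomial (Fin d) (ZMod p))})).comp (sub i r) := by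
    apply MvPolynomial.algHom_ext
    intro k
    by_cases hk : k = i
    · subst hk
      simp only [AlgHom.comp_apply, sub, aeval_X, if_true]
      exact Ideal.Quotient.eq.2 (Ideal.mem_span_singleton_self _)
    · simp only [AlgHom.comp_apply, sub, aeval_X, if_neg hk]
  exact congrArg (fun f => f P) h

lemma sub_degree (i : Fin d) (r : ZMod p) (P : MvPolynomial (Fin d) (ZMod p)) :
    (sub i r P).totalDegree ≤ P.totalDegree := by
  classical
  have h : sub i r P = ∑ m ∈ P.support, C (coeff m P) * ∏ k ∈ m.support, (if k = i then C r else X k) ^ (m k) := by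
    rw [sub, aeval_def, eval₂_eq]
    rfl
  rw [h]
  refine (totalDegree_finsetSum _ _).trans ?_
  refine Finset.sup_le fun m hm => ?_
  refine (totalDegree_mul _ _).trans ?_
  rw [totalDegree_C, zero_add]
  refine (totalDegree_finsetProd _ _).trans ?_
  have h2 : ∑ k ∈ m.support, ((if k = i then C r else X k : MvPolynomial (Fin d) (ZMod p)) ^ (m k)).totalDegree ≤
      ∑ k ∈ m.support, m k := by
    refine Finset.sum_le_sum fun k _ => ?_
    refine (totalDegree_pow _ _).trans ?_
    have h3 : (if k = i then C r else X k : MvPolynomial (Fin d) (ZMod p)).totalDegree ≤ 1 := by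
      split_ifs
      · rw [totalDegree_C]; exact Nat.zero_le _
      · rw [totalDegree_X]
    calc m k * _ ≤ m k * 1 := Nat.mul_le_mul_left _ h3
      _ = m k := mul_one _
  exact h2.trans (le_totalDegree hm)

end general

section aut

variable {d : ℕ}

/-- the automorphisms of the polynomial ring -/
abbrev A (d : ℕ) := MvPolynomial (Fin d) ℤ ≃ₐ[ℤ] MvPolynomial (Fin d) ℤ

variable (p : ℕ) [hp : Fact p.Prime]

lemma red_aut (Φ : A d) (P : MvPolynomial (Fin d) ℤ) :
    aeval (fun j => map (Int.castRingHom (ZMod p)) (Φ (X j))) (map (Int.castRingHom (ZMod p)) P) =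
      map (Int.castRingHom (ZMod p)) (Φ P) := by
  have h : ((aeval (fun j => map (Int.castRingHom (ZMod p)) (Φ (X j))) :
      MvPolynomial (Fin d) (ZMod p) →ₐ[ZMod p] MvPolynomial (Fin d) (ZMod p)).toRingHom).comp
      (map (Int.castRingHom (ZMod p))) =
      (map (Int.castRingHom (ZMod p))).comp (Φ : MvPolynomial (Fin d) ℤ →+* MvPolynomial (Fin d) ℤ) := by
    apply MvPolynomial.ringHom_ext
    · intro a
      simp
    · intro k
      simp
  exact congrArg (fun f => f P) h

/-- the reduction of an automorphism modulo `p` -/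
noncomputable def redAut (Φ : A d) : MvPolynomial (Fin d) (ZMod p) ≃ₐ[ZMod p] MvPolynomial (Fin d) (ZMod p) :=
  AlgEquiv.ofAlgHom (aeval fun j => map (Int.castRingHom (ZMod p)) (Φ (X j)))
    (aeval fun j => map (Int.castRingHom (ZMod p)) (Φ.symm (X j)))
    (by
      apply MvPolynomial.algHom_ext
      intro k
      simp only [AlgHom.comp_apply, aeval_X, AlgHom.id_apply]
      rw [red_aut p Φ, AlgEquiv.apply_symm_apply, map_X])
    (by
      apply MvPolynomial.algHom_ext
      intro k
      simp only [AlgHom.comp_apply, aeval_X, AlgHom.id_apply]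
      rw [red_aut p Φ.symm, AlgEquiv.symm_apply_apply, map_X])

lemma redAut_map (Φ : A d) (P : MvPolynomial (Fin d) ℤ) :
    redAut p Φ (map (Int.castRingHom (ZMod p)) P) = map (Int.castRingHom (ZMod p)) (Φ P) := red_aut p Φ P

/-- an irreducibility argument: if the image of a variable is constant on a hyperplane then it is linear in that variable -/
lemma linear_of_const (Θ : A d) (i j : Fin d) (r s : ZMod p)
    (h : sub i r (map (Int.castRingHom (ZMod p)) (Θ (X j))) = C s) :
    ∃ u c : ZMod p, map (Int.castRingHom (ZMod p)) (Θ (X j)) = C u * X i + C c := by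
  have h1 := sub_dvd i r (map (Int.castRingHom (ZMod p)) (Θ (X j)))
  rw [h] at h1
  obtain ⟨Q, hQ⟩ := h1
  have h2 : map (Int.castRingHom (ZMod p)) (Θ (X j)) = redAut p Θ (X j) := by
    rw [← redAut_map, map_X]
  have hC : ∀ c : ZMod p, redAut p Θ (C c) = C c := fun c => (redAut p Θ).commutes c
  have hC' : ∀ c : ZMod p, (redAut p Θ).symm (C c) = C c := fun c => (redAut p Θ).symm.commutes c
  have h3 : X j - C s = (redAut p Θ).symm (X i - C r) * (redAut p Θ).symm Q := by
    rw [← map_mul, ← hQ, map_sub, h2, AlgEquiv.symm_apply_apply, hC']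
  have hnz : ∀ (k : Fin d) (c : ZMod p), (X k - C c : MvPolynomial (Fin d) (ZMod p)).totalDegree = 1 := by
    intro k c
    apply le_antisymm
    · refine (totalDegree_sub _ _).trans ?_
      rw [totalDegree_X, totalDegree_C]
      exact le_rfl
    · by_contra hlt
      have h0 : (X k - C c : MvPolynomial (Fin d) (ZMod p)).totalDegree = 0 := by omega
      rw [totalDegree_eq_zero_iff_eq_C] at h0
      have h5 := congrArg (coeff (Finsupp.single k 1)) h0
      have hne : (0 : Fin d →₀ ℕ) ≠ Finsupp.single k 1 := fun hh => by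
        have := congrArg (fun f => f k) hh
        simp at this
      rw [coeff_sub, coeff_X, coeff_C, coeff_C, if_neg hne, if_neg hne, sub_zero, if_pos rfl] at h5
      exact one_ne_zero h5
  have hne3 : (X j - C s : MvPolynomial (Fin d) (ZMod p)) ≠ 0 := by
    intro hh
    have := hnz j s
    rw [hh, totalDegree_zero] at this
    omega
  have hA0 : (redAut p Θ).symm (X i - C r) ≠ 0 := by
    intro hh
    rw [hh, zero_mul] at h3
    exact hne3 h3
  have hB0 : (redAut p Θ).symm Q ≠ 0 := by
    intro hh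
    rw [hh, mul_zero] at h3
    exact hne3 h3
  have h4 : ((redAut p Θ).symm (X i - C r)).totalDegree + ((redAut p Θ).symm Q).totalDegree = 1 := by
    rw [← totalDegree_mul_of_isDomain hA0 hB0, ← h3, hnz]
  have h5 : ((redAut p Θ).symm (X i - C r)).totalDegree ≠ 0 := by
    intro hh
    rw [totalDegree_eq_zero_iff_eq_C] at hh
    have h6 := congrArg (redAut p Θ) hh
    rw [AlgEquiv.apply_symm_apply, hC] at h6
    have h7 := hnz i r
    rw [h6, totalDegree_C] at h7
    omega
  have h6 : ((redAut p Θ).symm Q).totalDegree = 0 := by omega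
  rw [totalDegree_eq_zero_iff_eq_C] at h6
  have h7 := congrArg (redAut p Θ) h6
  rw [AlgEquiv.apply_symm_apply, hC] at h7
  obtain ⟨b, hb⟩ : ∃ b : ZMod p, b = coeff 0 ((redAut p Θ).symm Q) := ⟨_, rfl⟩
  rw [← hb] at h7
  refine ⟨b, s - b * r, ?_⟩
  rw [sub_eq_iff_eq_add] at hQ
  rw [hQ, h7, map_sub, map_mul]
  ring

/-- the map on the points -/
noncomputable def pt (Φ : A d) (x : Fin d → ZMod p) : Fin d → ZMod p := fun i => aeval x (Φ (X i))

lemma aeval_pt (Φ : A d) (x : Fin d → ZMod p) (P : MvPolynomial (Fin d) ℤ) :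
    aeval (pt p Φ x) P = aeval x (Φ P) := by
  have h : (aeval (pt p Φ x) : MvPolynomial (Fin d) ℤ →ₐ[ℤ] ZMod p) =
      (aeval x : MvPolynomial (Fin d) ℤ →ₐ[ℤ] ZMod p).comp (Φ : MvPolynomial (Fin d) ℤ →ₐ[ℤ] MvPolynomial (Fin d) ℤ) := by
    apply MvPolynomial.algHom_ext
    intro k
    simp [pt]
  exact congrArg (fun f => f P) h

lemma pt_pt (Φ : A d) (x : Fin d → ZMod p) : pt p Φ.symm (pt p Φ x) = x := by
  funext i
  rw [pt, aeval_pt, AlgEquiv.apply_symm_apply, aeval_X]

lemma pt_pt' (Φ : A d) (x : Fin d → ZMod p) : pt p Φ (pt p Φ.symm x) = x := by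
  funext i
  rw [pt, aeval_pt, AlgEquiv.symm_apply_apply, aeval_X]

/-- the fibres of a coordinate -/
theorem card_fib (Φ : A d) (i : Fin d) (r : ZMod p) :
    p * Nat.card {x : Fin d → ZMod p // aeval x (Φ (X i)) = r} = p ^ d := by
  rw [← card_coord i r]
  congr 1
  refine Nat.card_congr ?_
  refine Equiv.subtypeEquiv ⟨pt p Φ, pt p Φ.symm, pt_pt p Φ, pt_pt' p Φ⟩ ?_
  intro x
  simp [pt]

/-- two coordinates of two automorphisms -/
theorem card_pair (Φ Ψ : A d) (i j : Fin d)
    (hne : ∀ u c : ZMod p, map (Int.castRingHom (ZMod p)) (Φ.symm (Ψ (X j))) ≠ C u * X i + C c) (r s : ZMod p) :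
    p ^ 2 * Nat.card {x : Fin d → ZMod p // aeval x (Φ (X i)) = r ∧ aeval x (Ψ (X j)) = s} ≤
      (Φ.symm (Ψ (X j))).totalDegree * p ^ d := by
  obtain ⟨H, hH⟩ : ∃ H : MvPolynomial (Fin d) (ZMod p), H = map (Int.castRingHom (ZMod p)) (Φ.symm (Ψ (X j))) := ⟨_, rfl⟩
  have hHdeg : H.totalDegree ≤ (Φ.symm (Ψ (X j))).totalDegree := by
    rw [hH]
    exact Finset.sup_mono (MvPolynomial.support_map_subset _ _)
  have hev : ∀ y : Fin d → ZMod p, aeval y (Φ.symm (Ψ (X j))) = eval y H := by
    intro y
    rw [hH, eval_map, aeval_def]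
    rfl
  -- transport
  have h1 : Nat.card {x : Fin d → ZMod p // aeval x (Φ (X i)) = r ∧ aeval x (Ψ (X j)) = s} =
      Nat.card {y : Fin d → ZMod p // y i = r ∧ eval y H = s} := by
    refine Nat.card_congr ?_
    refine Equiv.subtypeEquiv ⟨pt p Φ, pt p Φ.symm, pt_pt p Φ, pt_pt' p Φ⟩ ?_
    intro x
    rw [← hev]
    have h2 : aeval (pt p Φ x) (Φ.symm (Ψ (X j))) = aeval x (Ψ (X j)) := by
      rw [aeval_pt, AlgEquiv.apply_symm_apply]
    simp only [Equiv.coe_fn_mk, h2]
    exact Iff.rfl
  rw [h1]
  -- restriction to the hyperplane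
  have h2 : Nat.card {y : Fin d → ZMod p // y i = r ∧ eval y H = s} =
      Nat.card {y : Fin d → ZMod p // eval y (sub i r H - C s) = 0 ∧ y i = r} := by
    refine Nat.card_congr (Equiv.subtypeEquivRight fun y => ?_)
    rw [map_sub, sub_eval, eval_C, sub_eq_zero]
    constructor
    · rintro ⟨e1, e2⟩
      refine ⟨?_, e1⟩
      rw [← e1, Function.update_eq_self]
      exact e2
    · rintro ⟨e1, e2⟩
      refine ⟨e2, ?_⟩
      rw [← e2, Function.update_eq_self] at e1
      exact e1
  have h3 := fib_mul (p := p) i (fun y => eval y (sub i r H - C s) = 0) (fun _ => r) (fun x t => by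
    rw [map_sub, map_sub, sub_eval, sub_eval, Function.update_idem]
    simp) (fun _ _ => rfl)
  have hne0 : sub i r H - C s ≠ 0 := by
    intro h0
    rw [sub_eq_zero] at h0
    have h4 := linear_of_const p (Ψ.trans Φ.symm) i j r s (by
      rw [AlgEquiv.trans_apply, ← hH]
      exact h0)
    obtain ⟨u, c, huc⟩ := h4
    exact hne u c (by simpa using huc)
  have hdeg : (sub i r H - C s).totalDegree ≤ (Φ.symm (Ψ (X j))).totalDegree := by
    refine (totalDegree_sub _ _).trans ?_
    rw [totalDegree_C]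
    exact max_le ((sub_degree i r H).trans hHdeg) (Nat.zero_le _)
  have h5 := zeros_le _ hne0 _ hdeg
  rw [h2, pow_two, mul_assoc, h3]
  exact h5

end aut

/-- an automorphism takes a variable to a linear polynomial in one variable only with leading coefficient `± 1` -/
lemma unit_coeff {d : ℕ} (Θ : A d) (i j : Fin d) (a b : ℤ) (h : Θ (X j) = C a * X i + C b) : a = 1 ∨ a = -1 := by
  have h1 := congrArg Θ.symm h
  rw [AlgEquiv.symm_apply_apply, map_add, map_mul] at h1
  have hC : ∀ c : ℤ, Θ.symm (C c) = C c := fun c => Θ.symm.commutes c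
  rw [hC, hC] at h1
  have h2 := congrArg (coeff (Finsupp.single j 1)) h1
  have hne : (0 : Fin d →₀ ℕ) ≠ Finsupp.single j 1 := fun hh => by
    have := congrArg (fun f => f j) hh
    simp at this
  rw [coeff_X, coeff_add, coeff_C_mul, coeff_C, if_neg hne, add_zero, if_pos rfl] at h2
  exact Int.isUnit_iff.1 (IsUnit.of_mul_eq_one _ h2.symm)

/-- for the large primes the reduction is not linear in one variable if the polynomial is not -/
lemma not_linear_mod {d : ℕ} (H : MvPolynomial (Fin d) ℤ) (i : Fin d) (h : ∀ a b : ℤ, H ≠ C a * X i + C b) :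
    ∃ B : ℕ, ∀ p : ℕ, p.Prime → B < p → ∀ u c : ZMod p, map (Int.castRingHom (ZMod p)) H ≠ C u * X i + C c := by
  obtain ⟨m, hm0, hm1, hm⟩ : ∃ m : Fin d →₀ ℕ, m ≠ 0 ∧ m ≠ Finsupp.single i 1 ∧ coeff m H ≠ 0 := by
    by_contra hcon
    push Not at hcon
    apply h (coeff (Finsupp.single i 1) H) (coeff 0 H)
    have hne : (Finsupp.single i 1 : Fin d →₀ ℕ) ≠ 0 := by simp
    ext m
    rw [coeff_add, coeff_C_mul, coeff_X, coeff_C]
    by_cases h0 : m = 0
    · subst h0
      simp
    · by_cases h1 : m = Finsupp.single i 1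
      · subst h1
        rw [if_pos rfl, if_neg (Ne.symm hne)]
        ring
      · rw [hcon m h0 h1, if_neg (Ne.symm h1), if_neg (Ne.symm h0)]
        ring
  refine ⟨(coeff m H).natAbs, fun p hp hlt u c huc => ?_⟩
  have h1 := congrArg (coeff m) huc
  rw [coeff_map, coeff_add, coeff_C_mul, coeff_X, coeff_C, if_neg (Ne.symm hm1), if_neg (Ne.symm hm0)] at h1
  have h2 : ((coeff m H : ℤ) : ZMod p) = 0 := by simpa using h1
  rw [ZMod.intCast_zmod_eq_zero_iff_dvd] at h2
  have h3 : p ∣ (coeff m H).natAbs := Int.natCast_dvd.1 h2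
  have h4 := Nat.le_of_dvd (Int.natAbs_pos.2 hm) h3
  omega

end Pool.Agent.Q318.CO
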