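import Pool.Agent.Y837.SV.Crit3
import Pool.Agent.Q318.CO.Aut

set_option autoImplicit false

/-! # Record neighbourhoods of all the coordinates of finitely many automorphisms -/

namespace Pool.Agent.Q318.CO

open Finset Filter
open Pool.Agent.H256R2.SC (ff)
open Pool.Agent.H256R2.SC.LG (ana)

/-- the record function tends to infinity -/
theorem ff_large (K : ℝ) : ∃ X₀ : ℝ, ∀ X : ℝ, X₀ ≤ X → K ≤ ff X := by
  obtain ⟨c, hc, X₀, h⟩ := ana (c := 1) (C := 1) (y₀ := 0) one_pos one_pos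
  refine ⟨max X₀ (Real.exp (10 * (c * K))), fun X hX => ?_⟩
  obtain ⟨hX1, hX2⟩ := max_le_iff.1 hX
  obtain ⟨a1, a2, a3, a4, a5, a6, -⟩ := h X hX1 _ _ rfl rfl _ rfl
  have h1 : 10 * (c * K) ≤ Real.log X := by
    rw [← Real.log_exp (10 * (c * K))]
    exact Real.log_le_log (Real.exp_pos _) hX2
  have h2 : c * K ≤ c * ff X := by linarith
  exact le_of_mul_le_mul_left h2 hc

/-- a maximal set of pairwise unrelated members -/
lemma exists_reps {α : Type} [Fintype α] (R : α → α → Prop) (hs : ∀ a b, R a b → R b a) (hr : ∀ a, R a a) :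
    ∃ T : Finset α, (∀ a ∈ T, ∀ b ∈ T, a ≠ b → ¬ R a b) ∧ ∀ a, ∃ t ∈ T, R t a := by
  classical
  have key : ∀ S : Finset α, ∃ T : Finset α, (∀ a ∈ T, ∀ b ∈ T, a ≠ b → ¬ R a b) ∧ ∀ a ∈ S, ∃ t ∈ T, R t a := by
    intro S
    induction S using Finset.induction_on with
    | empty => exact ⟨∅, by simp, by simp⟩
    | insert e S he ih =>
      obtain ⟨T, h1, h2⟩ := ih
      by_cases h : ∃ t ∈ T, R t e
      · refine ⟨T, h1, fun a ha => ?_⟩
        rcases mem_insert.1 ha with rfl | ha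
        · exact h
        · exact h2 a ha
      · push Not at h
        refine ⟨insert e T, ?_, ?_⟩
        · intro a ha b hb hab
          rcases mem_insert.1 ha with ha' | ha'
          · rcases mem_insert.1 hb with hb' | hb'
            · exact absurd (ha'.trans hb'.symm) hab
            · rw [ha']
              exact fun hR => h b hb' (hs _ _ hR)
          · rcases mem_insert.1 hb with hb' | hb'
            · rw [hb']
              exact h a ha'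
            · exact h1 a ha' b hb' hab
        · intro a ha
          rcases mem_insert.1 ha with ha' | ha'
          · rw [ha']
            exact ⟨e, mem_insert_self _ _, hr e⟩
          · obtain ⟨t, ht, hR⟩ := h2 a ha'
            exact ⟨t, mem_insert_of_mem ht, hR⟩
  obtain ⟨T, h1, h2⟩ := key univ
  exact ⟨T, h1, fun a => h2 a (mem_univ a)⟩

/-- a coordinate of an automorphism is not constant -/
lemma coord_ne {d : ℕ} (Φ : A d) (i : Fin d) (c : ℤ) : Φ (MvPolynomial.X i) ≠ MvPolynomial.C c := by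
  intro h
  have hC : Φ (MvPolynomial.C c) = MvPolynomial.C c := Φ.commutes c
  rw [← hC] at h
  have h1 := Φ.injective h
  have h2 := congrArg MvPolynomial.totalDegree h1
  rw [MvPolynomial.totalDegree_X, MvPolynomial.totalDegree_C] at h2
  omega

/-- the coordinates -/
noncomputable def cF {ι : Type} {d : ℕ} (Φ : ι → A d) (e : ι × Fin d) : MvPolynomial (Fin d) ℤ :=
  Φ e.1 (MvPolynomial.X e.2)

/-- equal up to sign and an additive constant -/
def Rel {ι : Type} {d : ℕ} (Φ : ι → A d) (e e' : ι × Fin d) : Prop :=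
  ∃ a b : ℤ, (a = 1 ∨ a = -1) ∧ cF Φ e' = MvPolynomial.C a * cF Φ e + MvPolynomial.C b

lemma rel_symm {ι : Type} {d : ℕ} (Φ : ι → A d) (e e' : ι × Fin d) (h : Rel Φ e e') : Rel Φ e' e := by
  obtain ⟨a, b, ha, h1⟩ := h
  refine ⟨a, -(a * b), ha, ?_⟩
  have haa : (MvPolynomial.C a : MvPolynomial (Fin d) ℤ) * MvPolynomial.C a = 1 := by
    rw [← map_mul]
    rcases ha with h | h <;> rw [h] <;> simp
  have h2 : (MvPolynomial.C (-(a * b)) : MvPolynomial (Fin d) ℤ) = -(MvPolynomial.C a * MvPolynomial.C b) := by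
    rw [map_neg, map_mul]
  rw [h1, h2, mul_add, ← mul_assoc, haa, one_mul]
  ring

lemma rel_refl {ι : Type} {d : ℕ} (Φ : ι → A d) (e : ι × Fin d) : Rel Φ e e := by
  refine ⟨1, 0, Or.inl rfl, ?_⟩
  rw [map_one, map_zero, one_mul, add_zero]

/-- the linear relations between coordinates -/
lemma rel_of {ι : Type} {d : ℕ} (Φ : ι → A d) (e e' : ι × Fin d) (a b : ℤ)
    (hab : (Φ e.1).symm (cF Φ e') = MvPolynomial.C a * MvPolynomial.X e.2 + MvPolynomial.C b) : Rel Φ e e' := by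
  have ha : a = 1 ∨ a = -1 := unit_coeff ((Φ e'.1).trans (Φ e.1).symm) e.2 e'.2 a b hab
  refine ⟨a, b, ha, ?_⟩
  have h2 := congrArg (Φ e.1) hab
  have hC : ∀ c : ℤ, Φ e.1 (MvPolynomial.C c) = MvPolynomial.C c := fun c => (Φ e.1).commutes c
  rw [AlgEquiv.apply_symm_apply, map_add, map_mul, hC, hC] at h2
  exact h2

lemma le_double {α : Type} [Fintype α] (f : α → α → ℕ) (a b : α) : f a b ≤ ∑ a, ∑ b, f a b :=
  (single_le_sum (f := fun b => f a b) (fun _ _ => Nat.zero_le _) (mem_univ b)).trans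
    (single_le_sum (f := fun a => ∑ b, f a b) (fun _ _ => Nat.zero_le _) (mem_univ a))

lemma bounds {ι : Type} [Fintype ι] {d : ℕ} (Φ : ι → A d) : ∃ B₀ : ℕ, ∀ e e' : ι × Fin d, ¬ Rel Φ e e' →
    ∀ p : ℕ, p.Prime → B₀ < p → ∀ u c : ZMod p,
      MvPolynomial.map (Int.castRingHom (ZMod p)) ((Φ e.1).symm (cF Φ e')) ≠
        MvPolynomial.C u * MvPolynomial.X e.2 + MvPolynomial.C c := by
  classical
  have hpair : ∀ e e' : ι × Fin d, ∃ B : ℕ, ¬ Rel Φ e e' → ∀ p : ℕ, p.Prime → B < p → ∀ u c : ZMod p,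
      MvPolynomial.map (Int.castRingHom (ZMod p)) ((Φ e.1).symm (cF Φ e')) ≠
        MvPolynomial.C u * MvPolynomial.X e.2 + MvPolynomial.C c := by
    intro e e'
    by_cases hn : Rel Φ e e'
    · exact ⟨0, fun h => absurd hn h⟩
    · obtain ⟨B, hB⟩ := not_linear_mod _ e.2 (fun a b hab => hn (rel_of Φ e e' a b hab))
      exact ⟨B, fun _ => hB⟩
  choose B hB using hpair
  refine ⟨∑ e : ι × Fin d, ∑ e' : ι × Fin d, B e e', fun e e' hn p hp hlt => hB e e' hn p hp (lt_of_le_of_lt ?_ hlt)⟩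
  exact le_double B e e'

lemma degs {ι : Type} [Fintype ι] {d : ℕ} (Φ : ι → A d) : ∃ D : ℕ, ∀ e e' : ι × Fin d,
    ((Φ e.1).symm (cF Φ e')).totalDegree ≤ D := by
  obtain ⟨f, hf⟩ : ∃ f : ι × Fin d → ι × Fin d → ℕ, ∀ e e', f e e' = ((Φ e.1).symm (cF Φ e')).totalDegree :=
    ⟨_, fun _ _ => rfl⟩
  refine ⟨∑ e : ι × Fin d, ∑ e' : ι × Fin d, f e e', fun e e' => ?_⟩
  rw [← hf]
  exact le_double f e e'

lemma fib_real {ι : Type} {d : ℕ} (Φ : ι → A d) (e : ι × Fin d) (p : ℕ) (hp : p.Prime) (r : ZMod p) (D : ℕ) :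
    |(p : ℝ) * (Nat.card {x : Fin d → ZMod p // MvPolynomial.aeval x (cF Φ e) = r} : ℝ) - (p : ℝ) ^ d| ≤
      (D : ℝ) * (p : ℝ) ^ d * (p : ℝ) ^ (-(1 / 2 : ℝ)) := by
  have : Fact p.Prime := ⟨hp⟩
  have h1 := card_fib p (Φ e.1) e.2 r
  have h2 : (p : ℝ) * (Nat.card {x : Fin d → ZMod p // MvPolynomial.aeval x (cF Φ e) = r} : ℝ) = (p : ℝ) ^ d := by
    exact_mod_cast h1
  rw [h2, sub_self, abs_zero]
  positivity

lemma pair_real {ι : Type} {d : ℕ} (Φ : ι → A d) (e e' : ι × Fin d) (p : ℕ) (hp : p.Prime) (r s : ZMod p) (D : ℕ)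
    (hD : ((Φ e.1).symm (cF Φ e')).totalDegree ≤ D)
    (hne : ∀ u c : ZMod p, MvPolynomial.map (Int.castRingHom (ZMod p)) ((Φ e.1).symm (cF Φ e')) ≠
        MvPolynomial.C u * MvPolynomial.X e.2 + MvPolynomial.C c) :
    (p : ℝ) ^ 2 * (Nat.card {x : Fin d → ZMod p // MvPolynomial.aeval x (cF Φ e) = r ∧
        MvPolynomial.aeval x (cF Φ e') = s} : ℝ) ≤ (D : ℝ) * (p : ℝ) ^ d := by
  have : Fact p.Prime := ⟨hp⟩
  have h1 := card_pair p (Φ e.1) (Φ e'.1) e.2 e'.2 hne r s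
  have h2 : (p : ℝ) ^ 2 * (Nat.card {x : Fin d → ZMod p // MvPolynomial.aeval x (cF Φ e) = r ∧
      MvPolynomial.aeval x (cF Φ e') = s} : ℝ) ≤ (((Φ e.1).symm (cF Φ e')).totalDegree : ℝ) * (p : ℝ) ^ d := by
    exact_mod_cast h1
  refine h2.trans ?_
  have h3 : ((((Φ e.1).symm (cF Φ e')).totalDegree : ℕ) : ℝ) ≤ D := by exact_mod_cast hD
  exact mul_le_mul_of_nonneg_right h3 (by positivity)

/-- representatives only -/
lemma reps_main {ι : Type} [Fintype ι] (d : ℕ) (Φ : ι → A d) (T : Finset (ι × Fin d))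
    (hT1 : ∀ a ∈ T, ∀ b ∈ T, a ≠ b → ¬ Rel Φ a b) :
    ∃ c : ℝ, 0 < c ∧ ∃ Z₀ : ℝ, ∀ Z : ℕ, Z₀ ≤ Z → ∀ M : Fin d → ℤ, ∃ x : Fin d → ℤ,
      (∀ i, M i < x i ∧ x i ≤ M i + Z) ∧ ∀ e : {e // e ∈ T}, ∀ n : ℤ,
        |(n : ℝ) - MvPolynomial.eval x (cF Φ e.1)| ≤ c * ff Z →
        ∃ p : ℕ, p.Prime ∧ (p : ℝ) ≤ (Z : ℝ) ^ (1 / 10 : ℝ) ∧ (p : ℤ) ∣ n := by
  obtain ⟨B₀, hB₀⟩ := bounds Φ
  obtain ⟨D, hD⟩ := degs Φ
  exact Pool.Agent.Y837.SV.crit3 (ι := {e // e ∈ T}) d (fun e => cF Φ e.1)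
    (fun e c => coord_ne _ _ _)
    (fun _ => ∅) (fun j r hr => absurd hr (notMem_empty r)) B₀ D (1 / 2) (by norm_num)
    (fun p hp _ e r _ => fib_real Φ e.1 p hp r D)
    (fun p hp hBp e e' hne r s _ _ => pair_real Φ e.1 e'.1 p hp r s D (hD _ _)
      (hB₀ e.1 e'.1 (hT1 e.1 e.2 e'.1 e'.2 (fun h => hne (Subtype.ext h))) p hp hBp))

/-- **The coordinates of finitely many automorphisms.** -/
theorem aut_main {ι : Type} [Fintype ι] (d : ℕ) (Φ : ι → A d) :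
    ∃ c : ℝ, 0 < c ∧ ∃ Z₀ : ℝ, ∀ Z : ℕ, Z₀ ≤ Z → ∀ M : Fin d → ℤ, ∃ x : Fin d → ℤ,
      (∀ i, M i < x i ∧ x i ≤ M i + Z) ∧ ∀ k i, ∀ n : ℤ,
        |(n : ℝ) - MvPolynomial.eval x (Φ k (MvPolynomial.X i))| ≤ c * ff Z →
        ∃ p : ℕ, p.Prime ∧ (p : ℝ) ≤ (Z : ℝ) ^ (1 / 10 : ℝ) ∧ (p : ℤ) ∣ n := by
  classical
  obtain ⟨T, hT1, hT2⟩ := exists_reps (Rel Φ) (rel_symm Φ) (rel_refl Φ)
  obtain ⟨c, hc, Z₀, h⟩ := reps_main d Φ T hT1
  choose t ht a b hab hFe using hT2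
  obtain ⟨Z₁, hZ₁⟩ := ff_large (2 * (∑ e : ι × Fin d, |(b e : ℝ)|) / c)
  refine ⟨c / 2, by positivity, max Z₀ Z₁, fun Z hZ M => ?_⟩
  obtain ⟨hZa, hZb⟩ := max_le_iff.1 hZ
  obtain ⟨x, hx1, hx2⟩ := h Z hZa M
  refine ⟨x, hx1, fun k i n hn => ?_⟩
  obtain ⟨e, he⟩ : ∃ e : ι × Fin d, e = (k, i) := ⟨_, rfl⟩
  have hv : |(b e : ℝ)| ≤ c / 2 * ff Z := by
    have h1 : |(b e : ℝ)| ≤ ∑ e : ι × Fin d, |(b e : ℝ)| :=
      Finset.single_le_sum (f := fun e => |(b e : ℝ)|) (fun _ _ => abs_nonneg _) (mem_univ e)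
    have h2 := hZ₁ Z hZb
    rw [div_le_iff₀ hc] at h2
    linarith
  have hval : MvPolynomial.eval x (Φ k (MvPolynomial.X i)) = a e * MvPolynomial.eval x (cF Φ (t e)) + b e := by
    have h1 : Φ k (MvPolynomial.X i) = cF Φ e := by rw [he]; rfl
    rw [h1, hFe e, map_add, map_mul, MvPolynomial.eval_C, MvPolynomial.eval_C]
  obtain ⟨u, hu⟩ : ∃ u : ℤ, u = MvPolynomial.eval x (cF Φ (t e)) := ⟨_, rfl⟩
  obtain ⟨v, hv'⟩ : ∃ v : ℤ, v = MvPolynomial.eval x (Φ k (MvPolynomial.X i)) := ⟨_, rfl⟩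
  rw [← hu, ← hv'] at hval
  rw [← hv'] at hn
  have h3 : |((a e * n : ℤ) : ℝ) - u| ≤ c * ff Z := by
    have hval' : (v : ℝ) = a e * u + b e := by exact_mod_cast hval
    have h5 : |(n : ℝ) - v + b e| ≤ c * ff Z := by
      refine (abs_add_le _ _).trans ?_
      linarith
    rcases hab e with h4 | h4
    · rw [h4] at hval' ⊢
      push_cast at hval' ⊢
      have e1 : (1 : ℝ) * n - u = n - v + b e := by linarith
      rw [e1]
      exact h5
    · rw [h4] at hval' ⊢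
      push_cast at hval' ⊢
      have e1 : (-1 : ℝ) * n - u = -(n - v + b e) := by linarith
      rw [e1, abs_neg]
      exact h5
  obtain ⟨p, hp1, hp2, hp3⟩ := hx2 ⟨t e, ht e⟩ (a e * n) (by
    rw [← hu]
    exact h3)
  refine ⟨p, hp1, hp2, ?_⟩
  rcases hab e with h | h
  · rwa [h, one_mul] at hp3
  · rw [h, neg_one_mul, dvd_neg] at hp3
    exact hp3

end Pool.Agent.Q318.CO
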