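import Pool.Agent.Q318.CO.Aut

set_option autoImplicit false

/-! # Continuants: recursions, coprimality, counting solutions modulo `p` -/

namespace Pool.Agent.Q318.CO

open MvPolynomial

section ring

variable {R : Type*} [CommRing R]

/-- the continuant of `x i, …, x (i + m - 1)` -/
def K (x : ℕ → R) : ℕ → ℕ → R
  | _, 0 => 1
  | i, 1 => x i
  | i, (m + 2) => x i * K x (i + 1) (m + 1) + K x (i + 2) m

@[simp] lemma K_zero (x : ℕ → R) (i : ℕ) : K x i 0 = 1 := by rw [K]
@[simp] lemma K_one (x : ℕ → R) (i : ℕ) : K x i 1 = x i := by rw [K]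
lemma K_left (x : ℕ → R) (i m : ℕ) : K x i (m + 2) = x i * K x (i + 1) (m + 1) + K x (i + 2) m := by rw [K]

lemma K_right (x : ℕ → R) (m : ℕ) : ∀ i : ℕ, K x i (m + 2) = x (i + m + 1) * K x i (m + 1) + K x i m := by
  induction m using Nat.strong_induction_on with
  | _ m ih =>
    intro i
    match m with
    | 0 =>
      rw [K_left]
      simp
      ring
    | 1 =>
      have h2 : ∀ j, K x j (1 + 1) = x j * x (j + 1) + 1 := by
        intro j
        have := K_left x j 0
        simpa using this
      rw [K_left, h2, h2, K_one, K_one]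
      have e : i + 1 + 1 = i + 2 := by ring
      rw [e]
      ring
    | (m + 2) =>
      rw [K_left x i (m + 2), ih (m + 1) (by omega) (i + 1), ih m (by omega) (i + 2), K_left x i (m + 1),
        K_left x i m]
      have e1 : i + 1 + (m + 1) + 1 = i + (m + 2) + 1 := by ring
      have e2 : i + 2 + m + 1 = i + (m + 2) + 1 := by ring
      rw [e1, e2]
      ring

lemma K_congr (x y : ℕ → R) (m : ℕ) : ∀ i : ℕ, (∀ n, i ≤ n → n < i + m → x n = y n) → K x i m = K y i m := by
  induction m using Nat.strong_induction_on with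
  | _ m ih =>
    intro i h
    match m with
    | 0 => simp
    | 1 =>
      rw [K_one, K_one]
      exact h i le_rfl (by omega)
    | (m + 2) =>
      rw [K_left, K_left, h i le_rfl (by omega), ih (m + 1) (by omega) (i + 1) (fun n h1 h2 => h n (by omega) (by omega)),
        ih m (by omega) (i + 2) (fun n h1 h2 => h n (by omega) (by omega))]

lemma K_map {S : Type*} [CommRing S] (φ : R →+* S) (x : ℕ → R) (m : ℕ) :
    ∀ i : ℕ, φ (K x i m) = K (fun n => φ (x n)) i m := by
  induction m using Nat.strong_induction_on with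
  | _ m ih =>
    intro i
    match m with
    | 0 => simp
    | 1 => simp
    | (m + 2) => rw [K_left, K_left, map_add, map_mul, ih (m + 1) (by omega), ih m (by omega)]

/-- consecutive continuants have no common zero -/
lemma K_ne [Nontrivial R] (x : ℕ → R) (m : ℕ) : ∀ i : ℕ, K x i (m + 1) = 0 → K x (i + 1) m ≠ 0 := by
  induction m with
  | zero =>
    intro i _
    rw [K_zero]
    exact one_ne_zero
  | succ m ih =>
    intro i h h1
    rw [K_left, h1, mul_zero, zero_add] at h
    exact ih (i + 1) h1 h

end ring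

/-- integer points at which the continuant is `0` or `1` -/
lemma K_values (r : ℤ) (hr : r = 0 ∨ r = 1) (m : ℕ) : ∀ i : ℕ, 1 ≤ m → ∃ x : ℕ → ℤ, K x i m = r := by
  induction m using Nat.strong_induction_on with
  | _ m ih =>
    intro i hm
    match m with
    | 0 => omega
    | 1 => exact ⟨fun _ => r, K_one _ _⟩
    | 2 =>
      rcases hr with rfl | rfl
      · refine ⟨fun n => if n = i then 1 else -1, ?_⟩
        rw [K_left]
        simp
      · refine ⟨fun _ => 0, ?_⟩
        rw [K_left]
        simp
    | (m + 3) =>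
      obtain ⟨x, hx⟩ := ih (m + 1) (by omega) (i + 2) (by omega)
      refine ⟨fun n => if n = i then 0 else x n, ?_⟩
      rw [K_left _ i (m + 1)]
      simp only [if_true, zero_mul, zero_add]
      rw [← hx]
      apply K_congr
      intro n h1 _
      rw [if_neg (by omega)]

section count

variable {d p : ℕ} [hp : Fact p.Prime]

/-- a vector as a sequence -/
def ext {R : Type*} [Zero R] (x : Fin d → R) (n : ℕ) : R := if h : n < d then x ⟨n, h⟩ else 0

lemma ext_update {R : Type*} [Zero R] (x : Fin d → R) (a : Fin d) (t : R) (n : ℕ) (hn : n ≠ a) :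
    ext (Function.update x a t) n = ext x n := by
  unfold ext
  split_ifs with h
  · rw [Function.update_of_ne]
    intro h2
    apply hn
    rw [← h2]
  · rfl

lemma ext_fin {R : Type*} [Zero R] (x : Fin d → R) (a : ℕ) (ha : a < d) : ext x a = x ⟨a, ha⟩ := by
  unfold ext
  rw [dif_pos ha]

/-- independence of a coordinate -/
def Ind (a : Fin d) (f : (Fin d → ZMod p) → ZMod p) : Prop := ∀ x t, f (Function.update x a t) = f x

lemma ind_K (a : Fin d) (i m : ℕ) (h : (a : ℕ) < i ∨ i + m ≤ a) :
    Ind a (fun x : Fin d → ZMod p => K (ext x) i m) := by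
  intro x t
  apply K_congr
  intro n h1 h2
  exact ext_update x a t n (by omega)

/-- **The two step count**: `f = x_a A + A'` and `A = x_b A' + B'`. -/
lemma two_step (a b : Fin d) (hab : a ≠ b) (A' B' : (Fin d → ZMod p) → ZMod p) (hA'a : Ind a A') (hB'a : Ind a B')
    (hA'b : Ind b A') (hB'b : Ind b B') (E : (Fin d → ZMod p) → Prop)
    (hE : ∀ x t, E (Function.update x a t) ↔ E x) (r : ZMod p) (hr : r ≠ 0) :
    p * Nat.card {x // x a * (x b * A' x + B' x) + A' x = r ∧ E x} =
      Nat.card {x // x b * A' x + B' x ≠ 0 ∧ E x} +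
        p * Nat.card {x // (x b * A' x + B' x = 0 ∧ A' x = r) ∧ E x} ∧
    p * Nat.card {x // x b * A' x + B' x = 0 ∧ A' x = r} = Nat.card {x // A' x = r} := by
  classical
  constructor
  · have h1 := fib_mul (p := p) a (fun x => x b * A' x + B' x ≠ 0 ∧ E x)
      (fun x => (r - A' x) / (x b * A' x + B' x)) (fun x t => by
        rw [hA'a x t, hB'a x t, Function.update_of_ne hab.symm, hE]) (fun x t => by
        rw [hA'a x t, hB'a x t, Function.update_of_ne hab.symm])
    rw [← h1, ← mul_add]
    congr 1
    have e : {x // x a * (x b * A' x + B' x) + A' x = r ∧ E x} ≃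
        {x // (x b * A' x + B' x ≠ 0 ∧ E x) ∧ x a = (r - A' x) / (x b * A' x + B' x)} ⊕
          {x // (x b * A' x + B' x = 0 ∧ A' x = r) ∧ E x} := by
      refine (Equiv.subtypeEquivRight (fun x => ?_)).trans (subtypeOrEquiv _ _ ?_)
      · by_cases h0 : x b * A' x + B' x = 0
        · simp [h0]
        · constructor
          · rintro ⟨h2, h3⟩
            left
            refine ⟨⟨h0, h3⟩, ?_⟩
            rw [eq_div_iff h0, ← h2]
            ring
          · rintro (⟨⟨_, h3⟩, h2⟩ | ⟨⟨h2, _⟩, _⟩)
            · refine ⟨?_, h3⟩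
              rw [eq_div_iff h0] at h2
              rw [h2]
              ring
            · exact absurd h2 h0
      · rw [Pi.disjoint_iff]
        intro x
        rw [Prop.disjoint_iff]
        tauto
    rw [Nat.card_congr e, Nat.card_sum]
  · have h1 := fib_mul (p := p) b (fun x => A' x = r) (fun x => -B' x / A' x) (fun x t => by rw [hA'b x t])
      (fun x t => by rw [hA'b x t, hB'b x t])
    rw [← h1]
    congr 1
    refine Nat.card_congr (Equiv.subtypeEquivRight fun x => ?_)
    constructor
    · rintro ⟨h2, h3⟩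
      refine ⟨h3, ?_⟩
      have h4 : A' x ≠ 0 := by rw [h3]; exact hr
      rw [eq_div_iff h4]
      linear_combination h2
    · rintro ⟨h3, h2⟩
      have h4 : A' x ≠ 0 := by rw [h3]; exact hr
      rw [eq_div_iff h4] at h2
      refine ⟨?_, h3⟩
      linear_combination h2

/-- the upper bound with a side condition -/
lemma two_step_le (a b : Fin d) (hab : a ≠ b) (A' B' : (Fin d → ZMod p) → ZMod p) (hA'a : Ind a A') (hB'a : Ind a B')
    (hA'b : Ind b A') (hB'b : Ind b B') (E : (Fin d → ZMod p) → Prop)
    (hE : ∀ x t, E (Function.update x a t) ↔ E x) (r : ZMod p) (hr : r ≠ 0) :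
    p * Nat.card {x // x a * (x b * A' x + B' x) + A' x = r ∧ E x} ≤
      Nat.card {x // E x} + Nat.card {x // A' x = r} := by
  obtain ⟨h1, h2⟩ := two_step a b hab A' B' hA'a hB'a hA'b hB'b E hE r hr
  rw [h1, ← h2]
  refine add_le_add (card_mono fun x hx => hx.2) (Nat.mul_le_mul_left _ (card_mono fun x hx => hx.1))

/-- the exact formula -/
lemma two_step_eq (a b : Fin d) (hab : a ≠ b) (A' B' : (Fin d → ZMod p) → ZMod p) (hA'a : Ind a A') (hB'a : Ind a B')
    (hA'b : Ind b A') (hB'b : Ind b B') (r : ZMod p) (hr : r ≠ 0) :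
    p * Nat.card {x // x a * (x b * A' x + B' x) + A' x = r} =
      Nat.card {x // x b * A' x + B' x ≠ 0} + Nat.card {x // A' x = r} := by
  obtain ⟨h1, h2⟩ := two_step a b hab A' B' hA'a hB'a hA'b hB'b (fun _ => True) (fun _ _ => Iff.rfl) r hr
  simp only [and_true] at h1
  rw [h1, h2]

end count

end Pool.Agent.Q318.CO
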