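import Pool.Agent.Q318.CO.Cont

set_option autoImplicit false

/-! # Continuants modulo `p`: the two counting conditions -/

namespace Pool.Agent.Q318.CO

section ring

variable {R : Type*} [CommRing R]

def Bl (x : ℕ → R) (i : ℕ) : ℕ → R
  | 0 => 0
  | (m + 1) => K x (i + 3) m

def Br (x : ℕ → R) (i : ℕ) : ℕ → R
  | 0 => 0
  | (m + 1) => K x i m

lemma K_bl (x : ℕ → R) (i m : ℕ) : K x (i + 1) (m + 1) = x (i + 1) * K x (i + 2) m + Bl x i m := by
  cases m with
  | zero => simp [Bl]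
  | succ m => rw [K_left]; rfl

lemma K_br (x : ℕ → R) (i m : ℕ) : K x i (m + 1) = x (i + m) * K x i m + Br x i m := by
  cases m with
  | zero => simp [Br]
  | succ m => rw [K_right]; rfl

end ring

section count

variable {d p : ℕ} [hp : Fact p.Prime]

lemma ind_Bl (a : Fin d) (i m : ℕ) (h : (a : ℕ) ≤ i + 2) : Ind a (fun x : Fin d → ZMod p => Bl (ext x) i m) := by
  cases m with
  | zero => intro x t; rfl
  | succ m => exact ind_K a (i + 3) m (by omega)

lemma ind_Br (a : Fin d) (i m : ℕ) (h : i + m ≤ a + 1) : Ind a (fun x : Fin d → ZMod p => Br (ext x) i m) := by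
  cases m with
  | zero => intro x t; rfl
  | succ m => exact ind_K a i m (by omega)

lemma card_K_one (i : ℕ) (hi : i < d) (E : (Fin d → ZMod p) → Prop)
    (hE : ∀ x t, E (Function.update x ⟨i, hi⟩ t) ↔ E x) (r : ZMod p) :
    p * Nat.card {x : Fin d → ZMod p // K (ext x) i 1 = r ∧ E x} = Nat.card {x // E x} := by
  rw [← fib_mul (p := p) ⟨i, hi⟩ E (fun _ => r) hE (fun _ _ => rfl)]
  congr 1
  refine Nat.card_congr (Equiv.subtypeEquivRight fun x => ?_)
  rw [K_one, ext_fin _ i hi]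
  exact and_comm

/-- upper bound with a side condition, variable at the left end -/
lemma left_le (i m : ℕ) (hm : 1 ≤ m) (him : i + m ≤ d) (E : (Fin d → ZMod p) → Prop)
    (hE : ∀ x t, E (Function.update x ⟨i, by omega⟩ t) ↔ E x) (r : ZMod p) (hr : r ≠ 0) (hr1 : r ≠ 1) :
    p * Nat.card {x : Fin d → ZMod p // K (ext x) i m = r ∧ E x} ≤
      Nat.card {x // E x} + Nat.card {x : Fin d → ZMod p // K (ext x) (i + 2) (m - 2) = r ∧ 3 ≤ m} := by
  match m, hm with
  | 1, _ =>
    rw [card_K_one i (by omega) E hE r]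
    exact Nat.le_add_right _ _
  | (m + 2), _ =>
    have h := two_step_le (p := p) (⟨i, by omega⟩ : Fin d) ⟨i + 1, by omega⟩ (by
        intro h; rw [Fin.mk.injEq] at h; omega) (fun x => K (ext x) (i + 2) m) (fun x => Bl (ext x) i m)
      (ind_K _ _ _ (by left; simp)) (ind_Bl _ _ _ (by simp)) (ind_K _ _ _ (by left; simp))
      (ind_Bl _ _ _ (by simp)) E hE r hr
    have e1 : Nat.card {x : Fin d → ZMod p // K (ext x) i (m + 2) = r ∧ E x} =
        Nat.card {x : Fin d → ZMod p // x ⟨i, by omega⟩ * (x ⟨i + 1, by omega⟩ * K (ext x) (i + 2) m + Bl (ext x) i m) +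
          K (ext x) (i + 2) m = r ∧ E x} := by
      refine Nat.card_congr (Equiv.subtypeEquivRight fun x => ?_)
      rw [K_left, K_bl, ext_fin _ i (by omega), ext_fin _ (i + 1) (by omega)]
    rw [e1]
    refine h.trans (Nat.add_le_add_left ?_ _)
    cases m with
    | zero =>
      have : IsEmpty {x : Fin d → ZMod p // K (ext x) (i + 2) 0 = r} := ⟨fun x => hr1 (by
        rw [← x.2, K_zero])⟩
      rw [Nat.card_of_isEmpty]
      exact Nat.zero_le _
    | succ m =>
      exact card_mono fun x hx => ⟨by simpa using hx, by omega⟩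

/-- upper bound with a side condition, variable at the right end -/
lemma right_le (i m : ℕ) (hm : 1 ≤ m) (him : i + m ≤ d) (E : (Fin d → ZMod p) → Prop)
    (hE : ∀ x t, E (Function.update x ⟨i + m - 1, by omega⟩ t) ↔ E x) (r : ZMod p) (hr : r ≠ 0) (hr1 : r ≠ 1) :
    p * Nat.card {x : Fin d → ZMod p // K (ext x) i m = r ∧ E x} ≤
      Nat.card {x // E x} + Nat.card {x : Fin d → ZMod p // K (ext x) i (m - 2) = r ∧ 3 ≤ m} := by
  match m, hm with
  | 1, _ =>
    rw [card_K_one i (by omega) E hE r]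
    exact Nat.le_add_right _ _
  | (m + 2), _ =>
    have h := two_step_le (p := p) (⟨i + m + 1, by omega⟩ : Fin d) ⟨i + m, by omega⟩ (by
        intro h; rw [Fin.mk.injEq] at h; omega) (fun x => K (ext x) i m) (fun x => Br (ext x) i m)
      (ind_K _ _ _ (by right; simp only; omega)) (ind_Br _ _ _ (by simp only; omega)) (ind_K _ _ _ (by right; simp only; omega))
      (ind_Br _ _ _ (by simp only; omega)) E hE r hr
    have e1 : Nat.card {x : Fin d → ZMod p // K (ext x) i (m + 2) = r ∧ E x} =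
        Nat.card {x : Fin d → ZMod p // x ⟨i + m + 1, by omega⟩ * (x ⟨i + m, by omega⟩ * K (ext x) i m + Br (ext x) i m) +
          K (ext x) i m = r ∧ E x} := by
      refine Nat.card_congr (Equiv.subtypeEquivRight fun x => ?_)
      rw [K_right, K_br, ext_fin _ (i + m + 1) (by omega), ext_fin _ (i + m) (by omega)]
    rw [e1]
    refine h.trans (Nat.add_le_add_left ?_ _)
    cases m with
    | zero =>
      have : IsEmpty {x : Fin d → ZMod p // K (ext x) i 0 = r} := ⟨fun x => hr1 (by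
        rw [← x.2, K_zero])⟩
      rw [Nat.card_of_isEmpty]
      exact Nat.zero_le _
    | succ m =>
      exact card_mono fun x hx => ⟨by simpa using hx, by omega⟩

/-- the general upper bound -/
lemma upper (i m : ℕ) (hm : 1 ≤ m) (him : i + m ≤ d) (r : ZMod p) (hr : r ≠ 0) (hr1 : r ≠ 1) :
    p * Nat.card {x : Fin d → ZMod p // K (ext x) i m = r} ≤ 2 * p ^ d := by
  have h := left_le i m hm him (fun _ => True) (fun _ _ => Iff.rfl) r hr hr1
  have h1 : Nat.card {x : Fin d → ZMod p // K (ext x) i m = r ∧ True} =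
      Nat.card {x : Fin d → ZMod p // K (ext x) i m = r} := by simp
  rw [h1] at h
  refine h.trans ?_
  rw [two_mul]
  exact add_le_add (card_le_all _) (card_le_all _)

/-- the zeros -/
lemma zero_le (i m : ℕ) (hm : 1 ≤ m) (him : i + m ≤ d) :
    p * Nat.card {x : Fin d → ZMod p // K (ext x) i m = 0} ≤ p ^ d := by
  match m, hm with
  | 1, _ =>
    have h := card_K_one (d := d) (p := p) i (by omega) (fun _ => True) (fun _ _ => Iff.rfl) 0
    have h1 : Nat.card {x : Fin d → ZMod p // K (ext x) i 1 = 0 ∧ True} =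
        Nat.card {x : Fin d → ZMod p // K (ext x) i 1 = 0} := by simp
    rw [h1] at h
    rw [h]
    exact card_le_all _
  | (m + 2), _ =>
    have h := fib_mul (p := p) (⟨i, by omega⟩ : Fin d) (fun x => K (ext x) (i + 1) (m + 1) ≠ 0)
      (fun x => -K (ext x) (i + 2) m / K (ext x) (i + 1) (m + 1))
      (fun x t => by
        have := ind_K (p := p) (⟨i, by omega⟩ : Fin d) (i + 1) (m + 1) (by left; simp) x t
        simp only at this
        rw [this])
      (fun x t => by
        have h1 := ind_K (p := p) (⟨i, by omega⟩ : Fin d) (i + 1) (m + 1) (by left; simp) x t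
        have h2 := ind_K (p := p) (⟨i, by omega⟩ : Fin d) (i + 2) m (by left; simp) x t
        simp only at h1 h2
        rw [h1, h2])
    have e : Nat.card {x : Fin d → ZMod p // K (ext x) i (m + 2) = 0} =
        Nat.card {x : Fin d → ZMod p // K (ext x) (i + 1) (m + 1) ≠ 0 ∧
          x ⟨i, by omega⟩ = -K (ext x) (i + 2) m / K (ext x) (i + 1) (m + 1)} := by
      refine Nat.card_congr (Equiv.subtypeEquivRight fun x => ?_)
      rw [K_left, ext_fin _ i (by omega)]
      constructor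
      · intro h1
        have h0 : K (ext x) (i + 1) (m + 1) ≠ 0 := by
          intro h0
          rw [h0, mul_zero, zero_add] at h1
          exact K_ne (ext x) m (i + 1) h0 h1
        refine ⟨h0, ?_⟩
        rw [eq_div_iff h0]
        linear_combination h1
      · rintro ⟨h0, h1⟩
        rw [eq_div_iff h0] at h1
        linear_combination h1
    rw [e, h]
    exact card_le_all _

/-- **Equidistribution.** -/
theorem equi (i m : ℕ) (hm : 1 ≤ m) (him : i + m ≤ d) (r : ZMod p) (hr : r ≠ 0) (hr1 : r ≠ 1) :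
    |(p : ℝ) * (Nat.card {x : Fin d → ZMod p // K (ext x) i m = r} : ℝ) - (p : ℝ) ^ d| ≤
      2 * (p : ℝ) ^ d * (p : ℝ) ^ (-(1 : ℝ)) := by
  have hp0 : (0 : ℝ) < p := by exact_mod_cast hp.out.pos
  have hrhs : 2 * (p : ℝ) ^ d * (p : ℝ) ^ (-(1 : ℝ)) = 2 * (p : ℝ) ^ d / p := by
    rw [Real.rpow_neg_one]
    rfl
  rw [hrhs, le_div_iff₀ hp0]
  match m, hm with
  | 1, _ =>
    have h := card_K_one (d := d) (p := p) i (by omega) (fun _ => True) (fun _ _ => Iff.rfl) r
    have h1 : Nat.card {x : Fin d → ZMod p // K (ext x) i 1 = r ∧ True} =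
        Nat.card {x : Fin d → ZMod p // K (ext x) i 1 = r} := by simp
    have h2 : Nat.card {x : Fin d → ZMod p // True} = p ^ d := by
      have e : {x : Fin d → ZMod p // True} ≃ (Fin d → ZMod p) := Equiv.Set.univ _
      rw [Nat.card_congr e, card_all]
    rw [h1, h2] at h
    have h3 : (p : ℝ) * (Nat.card {x : Fin d → ZMod p // K (ext x) i 1 = r} : ℝ) = (p : ℝ) ^ d := by
      exact_mod_cast h
    rw [h3, sub_self, abs_zero, zero_mul]
    positivity
  | (m + 2), _ =>
    have h := two_step_eq (p := p) (⟨i, by omega⟩ : Fin d) ⟨i + 1, by omega⟩ (by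
        intro h; rw [Fin.mk.injEq] at h; omega) (fun x => K (ext x) (i + 2) m) (fun x => Bl (ext x) i m)
      (ind_K _ _ _ (by left; simp)) (ind_Bl _ _ _ (by simp)) (ind_K _ _ _ (by left; simp))
      (ind_Bl _ _ _ (by simp)) r hr
    have e1 : Nat.card {x : Fin d → ZMod p // K (ext x) i (m + 2) = r} =
        Nat.card {x : Fin d → ZMod p // x ⟨i, by omega⟩ * (x ⟨i + 1, by omega⟩ * K (ext x) (i + 2) m + Bl (ext x) i m) +
          K (ext x) (i + 2) m = r} := by
      refine Nat.card_congr (Equiv.subtypeEquivRight fun x => ?_)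
      rw [K_left, K_bl, ext_fin _ i (by omega), ext_fin _ (i + 1) (by omega)]
    rw [← e1] at h
    -- the complement of the zeros
    have e2 : Nat.card {x : Fin d → ZMod p // x ⟨i + 1, by omega⟩ * K (ext x) (i + 2) m + Bl (ext x) i m ≠ 0} +
        Nat.card {x : Fin d → ZMod p // K (ext x) (i + 1) (m + 1) = 0} = p ^ d := by
      have e3 : Nat.card {x : Fin d → ZMod p // x ⟨i + 1, by omega⟩ * K (ext x) (i + 2) m + Bl (ext x) i m ≠ 0} =
          Nat.card {x : Fin d → ZMod p // ¬ K (ext x) (i + 1) (m + 1) = 0} := by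
        refine Nat.card_congr (Equiv.subtypeEquivRight fun x => ?_)
        rw [K_bl, ext_fin _ (i + 1) (by omega)]
      rw [e3, add_comm, ← card_all (d := d) (p := p), ← Nat.card_sum]
      exact Nat.card_congr (Equiv.sumCompl _)
    have h0 := zero_le (p := p) (i + 1) (m + 1) (by omega) (by omega : i + 1 + (m + 1) ≤ d)
    have h1 : p * Nat.card {x : Fin d → ZMod p // K (ext x) (i + 2) m = r} ≤ 2 * p ^ d := by
      cases m with
      | zero =>
        have : IsEmpty {x : Fin d → ZMod p // K (ext x) (i + 2) 0 = r} := ⟨fun x => hr1 (by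
          rw [← x.2, K_zero])⟩
        rw [Nat.card_of_isEmpty, mul_zero]
        exact Nat.zero_le _
      | succ m => exact upper (i + 2) (m + 1) (by omega) (by omega) r hr hr1
    obtain ⟨a, ha⟩ : ∃ a : ℕ, a = Nat.card {x : Fin d → ZMod p // K (ext x) i (m + 2) = r} := ⟨_, rfl⟩
    obtain ⟨b, hb⟩ : ∃ b : ℕ, b = Nat.card {x : Fin d → ZMod p // x ⟨i + 1, by omega⟩ * K (ext x) (i + 2) m + Bl (ext x) i m ≠ 0} :=
      ⟨_, rfl⟩
    obtain ⟨c, hc⟩ : ∃ c : ℕ, c = Nat.card {x : Fin d → ZMod p // K (ext x) (i + 1) (m + 1) = 0} := ⟨_, rfl⟩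
    obtain ⟨e, he⟩ : ∃ e : ℕ, e = Nat.card {x : Fin d → ZMod p // K (ext x) (i + 2) m = r} := ⟨_, rfl⟩
    rw [← ha, ← hb, ← he] at h
    rw [← hb, ← hc] at e2
    rw [← hc] at h0
    rw [← he] at h1
    rw [← ha]
    have h' : (p : ℝ) * a = b + e := by exact_mod_cast h
    have e2' : (b : ℝ) + c = (p : ℝ) ^ d := by exact_mod_cast e2
    have h0' : (p : ℝ) * c ≤ (p : ℝ) ^ d := by exact_mod_cast h0
    have h1' : (p : ℝ) * e ≤ 2 * (p : ℝ) ^ d := by exact_mod_cast h1
    have hc0 : (0 : ℝ) ≤ p * c := by positivity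
    have he0 : (0 : ℝ) ≤ p * e := by positivity
    have e4 : (p : ℝ) * a - (p : ℝ) ^ d = e - c := by linarith
    rw [e4]
    have e5 : |(e : ℝ) - c| * p = |(p : ℝ) * e - p * c| := by
      rw [← mul_sub, abs_mul, abs_of_pos hp0]
      ring
    rw [e5, abs_le]
    constructor <;> linarith

/-- **Pairs.** -/
theorem pair (i m k l : ℕ) (hm : 1 ≤ m) (him : i + m ≤ d) (hl : 1 ≤ l) (hkl : k + l ≤ d) (hne : ¬ (i = k ∧ m = l))
    (r s : ZMod p) (hr : r ≠ 0) (hr1 : r ≠ 1) (hs : s ≠ 0) (hs1 : s ≠ 1) :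
    p ^ 2 * Nat.card {x : Fin d → ZMod p // K (ext x) i m = r ∧ K (ext x) k l = s} ≤ 4 * p ^ d := by
  -- the bound for the auxiliary sets
  have aux : ∀ i' m' : ℕ, 3 ≤ m' + 2 → i' + m' ≤ d → ∀ t : ZMod p, t ≠ 0 → t ≠ 1 → ∀ q : Prop,
      p * Nat.card {x : Fin d → ZMod p // K (ext x) i' m' = t ∧ q} ≤ 2 * p ^ d := by
    intro i' m' h1 h2 t ht ht1 q
    exact (Nat.mul_le_mul_left _ (card_mono fun x hx => hx.1)).trans (upper i' m' (by omega) h2 t ht ht1)
  have auxL : ∀ i' m' : ℕ, 1 ≤ m' → i' + m' ≤ d → ∀ t : ZMod p, t ≠ 0 → t ≠ 1 →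
      p * Nat.card {x : Fin d → ZMod p // K (ext x) (i' + 2) (m' - 2) = t ∧ 3 ≤ m'} ≤ 2 * p ^ d := by
    intro i' m' h1 h2 t ht ht1
    rcases Nat.lt_or_ge m' 3 with h3 | h3
    · have : IsEmpty {x : Fin d → ZMod p // K (ext x) (i' + 2) (m' - 2) = t ∧ 3 ≤ m'} := ⟨fun x => by
        have := x.2.2
        omega⟩
      rw [Nat.card_of_isEmpty, mul_zero]
      exact Nat.zero_le _
    · exact aux (i' + 2) (m' - 2) (by omega) (by omega) t ht ht1 _
  have auxR : ∀ i' m' : ℕ, 1 ≤ m' → i' + m' ≤ d → ∀ t : ZMod p, t ≠ 0 → t ≠ 1 →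
      p * Nat.card {x : Fin d → ZMod p // K (ext x) i' (m' - 2) = t ∧ 3 ≤ m'} ≤ 2 * p ^ d := by
    intro i' m' h1 h2 t ht ht1
    rcases Nat.lt_or_ge m' 3 with h3 | h3
    · have : IsEmpty {x : Fin d → ZMod p // K (ext x) i' (m' - 2) = t ∧ 3 ≤ m'} := ⟨fun x => by
        have := x.2.2
        omega⟩
      rw [Nat.card_of_isEmpty, mul_zero]
      exact Nat.zero_le _
    · exact aux i' (m' - 2) (by omega) (by omega) t ht ht1 _
  have hL : ∀ i m k l : ℕ, 1 ≤ m → i + m ≤ d → 1 ≤ l → k + l ≤ d → ∀ r s : ZMod p, r ≠ 0 → r ≠ 1 → s ≠ 0 → s ≠ 1 →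
      i < k → p ^ 2 * Nat.card {x : Fin d → ZMod p // K (ext x) i m = r ∧ K (ext x) k l = s} ≤ 4 * p ^ d := by
    intro i m k l hm him hl hkl r s hr hr1 hs hs1 hik
    have h := left_le (p := p) i m hm him (fun x => K (ext x) k l = s) (fun x t => by
      have h1 := ind_K (p := p) (⟨i, by omega⟩ : Fin d) k l (by left; simpa using hik) x t
      simp only at h1
      rw [h1]) r hr hr1
    have h2 := upper (p := p) k l hl hkl s hs hs1
    have h3 := auxL i m hm him r hr hr1
    calc p ^ 2 * Nat.card {x : Fin d → ZMod p // K (ext x) i m = r ∧ K (ext x) k l = s} =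
          p * (p * Nat.card {x : Fin d → ZMod p // K (ext x) i m = r ∧ K (ext x) k l = s}) := by ring
      _ ≤ p * _ := Nat.mul_le_mul_left _ h
      _ = p * Nat.card {x : Fin d → ZMod p // K (ext x) k l = s} +
          p * Nat.card {x : Fin d → ZMod p // K (ext x) (i + 2) (m - 2) = r ∧ 3 ≤ m} := by ring
      _ ≤ 2 * p ^ d + 2 * p ^ d := add_le_add h2 h3
      _ = 4 * p ^ d := by ring
  have hR : ∀ i m l : ℕ, 1 ≤ m → i + m ≤ d → 1 ≤ l → i + l ≤ d → ∀ r s : ZMod p, r ≠ 0 → r ≠ 1 → s ≠ 0 → s ≠ 1 →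
      l < m → p ^ 2 * Nat.card {x : Fin d → ZMod p // K (ext x) i m = r ∧ K (ext x) i l = s} ≤ 4 * p ^ d := by
    intro i m l hm him hl hkl r s hr hr1 hs hs1 hlm
    have h := right_le (p := p) i m hm him (fun x => K (ext x) i l = s) (fun x t => by
      have h1 := ind_K (p := p) (⟨i + m - 1, by omega⟩ : Fin d) i l (by right; simp only; omega) x t
      simp only at h1
      rw [h1]) r hr hr1
    have h2 := upper (p := p) i l hl hkl s hs hs1
    have h3 := auxR i m hm him r hr hr1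
    calc p ^ 2 * Nat.card {x : Fin d → ZMod p // K (ext x) i m = r ∧ K (ext x) i l = s} =
          p * (p * Nat.card {x : Fin d → ZMod p // K (ext x) i m = r ∧ K (ext x) i l = s}) := by ring
      _ ≤ p * _ := Nat.mul_le_mul_left _ h
      _ = p * Nat.card {x : Fin d → ZMod p // K (ext x) i l = s} +
          p * Nat.card {x : Fin d → ZMod p // K (ext x) i (m - 2) = r ∧ 3 ≤ m} := by ring
      _ ≤ 2 * p ^ d + 2 * p ^ d := add_le_add h2 h3
      _ = 4 * p ^ d := by ring
  have hcomm : ∀ P Q : (Fin d → ZMod p) → Prop, Nat.card {x // P x ∧ Q x} = Nat.card {x // Q x ∧ P x} := by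
    intro P Q
    exact Nat.card_congr (Equiv.subtypeEquivRight fun x => and_comm)
  rcases lt_trichotomy i k with h | h | h
  · exact hL i m k l hm him hl hkl r s hr hr1 hs hs1 h
  · subst h
    rcases lt_trichotomy m l with h1 | h1 | h1
    · rw [hcomm]
      exact hR i l m hl hkl hm him s r hs hs1 hr hr1 h1
    · exact absurd ⟨rfl, h1⟩ hne
    · exact hR i m l hm him hl hkl r s hr hr1 hs hs1 h1
  · rw [hcomm]
    exact hL k l i m hl hkl hm him s r hs hs1 hr hr1 h

end count

end Pool.Agent.Q318.CO
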