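import Pool.Agent.Y837.SV.Crit3
import Pool.Agent.Q318.CO.Cont2

set_option autoImplicit false

/-! # Record neighbourhoods of all the continuants of the points of a box -/

namespace Pool.Agent.Q318.CO

open Finset Filter
open Pool.Agent.H256R2.SC (ff)

/-- the continuant polynomial -/
noncomputable def CP (d i m : ℕ) : MvPolynomial (Fin d) ℤ :=
  K (ext (fun j : Fin d => (MvPolynomial.X j : MvPolynomial (Fin d) ℤ))) i m

lemma aeval_CP {d : ℕ} {R : Type} [CommRing R] (x : Fin d → R) (i m : ℕ) :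
    MvPolynomial.aeval x (CP d i m) = K (ext x) i m := by
  have h := K_map (MvPolynomial.aeval x : MvPolynomial (Fin d) ℤ →ₐ[ℤ] R).toRingHom
    (ext (fun j : Fin d => (MvPolynomial.X j : MvPolynomial (Fin d) ℤ))) m i
  have h2 : (fun n => (MvPolynomial.aeval x : MvPolynomial (Fin d) ℤ →ₐ[ℤ] R).toRingHom
      (ext (fun j : Fin d => (MvPolynomial.X j : MvPolynomial (Fin d) ℤ)) n)) = ext x := by
    funext n
    unfold ext
    split_ifs with hn
    · simp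
    · simp
  rw [h2] at h
  exact h

lemma eval_CP {d : ℕ} (x : Fin d → ℤ) (i m : ℕ) : MvPolynomial.eval x (CP d i m) = K (ext x) i m := by
  rw [← aeval_CP, MvPolynomial.aeval_eq_eval]

lemma values {d : ℕ} (i m : ℕ) (hm : 1 ≤ m) (him : i + m ≤ d) (r : ℤ) (hr : r = 0 ∨ r = 1) :
    ∃ x : Fin d → ℤ, K (ext x) i m = r := by
  obtain ⟨x, hx⟩ := K_values r hr m i hm
  refine ⟨fun j => x j, ?_⟩
  rw [← hx]
  apply K_congr
  intro n _ h2
  rw [ext_fin _ n (by omega)]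

/-- the index set -/
abbrev Ix (d : ℕ) := {q : Fin (d + 1) × Fin (d + 1) // 1 ≤ (q.2 : ℕ) ∧ (q.1 : ℕ) + q.2 ≤ d}

/-- **All continuants.** -/
theorem cont_main (d : ℕ) :
    ∃ c : ℝ, 0 < c ∧ ∃ Z₀ : ℝ, ∀ Z : ℕ, Z₀ ≤ Z → ∀ M : Fin d → ℤ, ∃ x : Fin d → ℤ,
      (∀ i, M i < x i ∧ x i ≤ M i + Z) ∧ ∀ j : Ix d, ∀ n : ℤ,
        |(n : ℝ) - (K (ext x) j.1.1 j.1.2 : ℤ)| ≤ c * ff Z →
        ∃ p : ℕ, p.Prime ∧ (p : ℝ) ≤ (Z : ℝ) ^ (1 / 10 : ℝ) ∧ (p : ℤ) ∣ n := by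
  classical
  obtain ⟨c, hc, Z₀, h⟩ := Pool.Agent.Y837.SV.crit3 (ι := Ix d) d (fun j => CP d j.1.1 j.1.2)
    (by
      intro j a ha
      obtain ⟨x, hx⟩ := values (d := d) j.1.1 j.1.2 j.2.1 j.2.2 0 (Or.inl rfl)
      obtain ⟨y, hy⟩ := values (d := d) j.1.1 j.1.2 j.2.1 j.2.2 1 (Or.inr rfl)
      rw [← eval_CP, ha, MvPolynomial.eval_C] at hx hy
      omega)
    (fun _ => {0, 1})
    (by
      intro j r hr B
      obtain ⟨p, hp1, hp2⟩ := Nat.exists_infinite_primes (B + 1)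
      obtain ⟨x, hx⟩ := values (d := d) j.1.1 j.1.2 j.2.1 j.2.2 r (by
        rw [mem_insert, mem_singleton] at hr
        exact hr)
      refine ⟨p, hp2, by omega, x, ?_⟩
      rw [eval_CP, hx, sub_self]
      exact dvd_zero _)
    1 4 1 (by norm_num)
    (by
      intro p hp _ j r hr
      have : Fact p.Prime := ⟨hp⟩
      have h0 : r ≠ 0 := by simpa using hr 0 (by simp)
      have h1 : r ≠ 1 := by simpa using hr 1 (by simp)
      have h2 := equi (p := p) (d := d) j.1.1 j.1.2 j.2.1 j.2.2 r h0 h1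
      have e : {x : Fin d → ZMod p // MvPolynomial.aeval x (CP d j.1.1 j.1.2) = r} =
          {x : Fin d → ZMod p // K (ext x) j.1.1 j.1.2 = r} := by
        simp only [aeval_CP]
      rw [e]
      refine h2.trans ?_
      have hp0 : (0 : ℝ) < p := by exact_mod_cast hp.pos
      have : 0 ≤ (p : ℝ) ^ d * (p : ℝ) ^ (-(1 : ℝ)) := by positivity
      nlinarith)
    (by
      intro p hp _ j k hjk r s hr hs
      have : Fact p.Prime := ⟨hp⟩
      have h0 : r ≠ 0 := by simpa using hr 0 (by simp)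
      have h1 : r ≠ 1 := by simpa using hr 1 (by simp)
      have g0 : s ≠ 0 := by simpa using hs 0 (by simp)
      have g1 : s ≠ 1 := by simpa using hs 1 (by simp)
      have h2 := pair (p := p) (d := d) j.1.1 j.1.2 k.1.1 k.1.2 j.2.1 j.2.2 k.2.1 k.2.2 (by
        rintro ⟨e1, e2⟩
        exact hjk (Subtype.ext (Prod.ext (Fin.ext e1) (Fin.ext e2)))) r s h0 h1 g0 g1
      have e : {x : Fin d → ZMod p // MvPolynomial.aeval x (CP d j.1.1 j.1.2) = r ∧
          MvPolynomial.aeval x (CP d k.1.1 k.1.2) = s} =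
          {x : Fin d → ZMod p // K (ext x) j.1.1 j.1.2 = r ∧ K (ext x) k.1.1 k.1.2 = s} := by
        simp only [aeval_CP]
      rw [e]
      exact_mod_cast h2)
  refine ⟨c, hc, Z₀, fun Z hZ M => ?_⟩
  obtain ⟨x, hx1, hx2⟩ := h Z hZ M
  refine ⟨x, hx1, fun j n hn => hx2 j n ?_⟩
  rw [eval_CP]
  exact hn

/-- the form for first occurrences -/
theorem cont_first (d : ℕ) :
    ∃ C : ℝ, 0 < C ∧ ∃ G : ℕ, ∀ g : ℕ, G ≤ g → ∀ M : Fin d → ℤ, ∃ x : Fin d → ℤ,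
      (∀ i, (M i : ℝ) < x i ∧ (x i : ℝ) ≤ M i + Real.exp (Pool.Agent.Y837.SV.tt C g)) ∧
        ∀ j : Ix d, ∀ n : ℤ, |n - K (ext x) j.1.1 j.1.2| ≤ g →
          ∃ p : ℕ, p.Prime ∧ (p : ℝ) ≤ Real.exp (Pool.Agent.Y837.SV.tt C g / 10) ∧ (p : ℤ) ∣ n :=
  Pool.Agent.Y837.SV.first_of_record (fun (j : Ix d) x => K (ext x) j.1.1 j.1.2) (cont_main d)

end Pool.Agent.Q318.CO
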