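import Mathlib

set_option autoImplicit false

/-! # From integers without large prime factors to gaps between consecutive primes -/

namespace Pool.Agent.Q318.CO

/-- the consecutive primes around an integer near which all integers have a small prime factor -/
lemma gap_of_iso (Z : ℕ) (hZ : 100 ≤ Z) (K : ℝ) (hK : 0 ≤ K) (v : ℤ) (hv : (Z : ℤ) < v)
    (h : ∀ n : ℤ, |(n : ℝ) - v| ≤ K → ∃ p : ℕ, p.Prime ∧ (p : ℝ) ≤ (Z : ℝ) ^ (1 / 10 : ℝ) ∧ (p : ℤ) ∣ n) :
    ∃ n : ℕ, (Nat.nth Nat.Prime n : ℤ) < v ∧ v < Nat.nth Nat.Prime (n + 1) ∧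
      K < (v : ℝ) - Nat.nth Nat.Prime n ∧ K < (Nat.nth Nat.Prime (n + 1) : ℝ) - v ∧
      (Nat.nth Nat.Prime (n + 1) : ℤ) ≤ 2 * v := by
  obtain ⟨w, rfl⟩ : ∃ w : ℕ, v = w := ⟨v.toNat, by rw [Int.toNat_of_nonneg (by omega)]⟩
  have hZw : Z < w := by exact_mod_cast hv
  have hZ10 : (Z : ℝ) ^ (1 / 10 : ℝ) ≤ Z / 2 - 1 := by
    have hZr : (100 : ℝ) ≤ Z := by exact_mod_cast hZ
    have h1 : (Z : ℝ) ^ (1 / 10 : ℝ) ≤ (Z : ℝ) ^ (1 / 2 : ℝ) :=
      Real.rpow_le_rpow_of_exponent_le (by linarith) (by norm_num)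
    rw [← Real.sqrt_eq_rpow] at h1
    have h2 : √(Z : ℝ) * √(Z : ℝ) = Z := Real.mul_self_sqrt (by linarith)
    have h3 : 10 ≤ √(Z : ℝ) := Real.le_sqrt_of_sq_le (by norm_num; linarith)
    nlinarith
  -- a prime larger than `Z / 2 - 1` has distance larger than `K`
  have hfar : ∀ q : ℕ, q.Prime → (Z : ℝ) / 2 - 1 < q → K < |(q : ℝ) - w| := by
    intro q hq hqZ
    by_contra hcon
    push Not at hcon
    obtain ⟨p, hp, hp2, hp3⟩ := h q (by push_cast; exact hcon)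
    have h4 : p = q := (Nat.prime_dvd_prime_iff_eq hp hq).1 (by exact_mod_cast hp3)
    rw [h4] at hp2
    linarith
  have hnp : ¬ w.Prime := by
    intro hw
    have h5 := hfar w hw (by
      have : (Z : ℝ) < w := by exact_mod_cast hZw
      have h0 : (0 : ℝ) ≤ Z := Nat.cast_nonneg _
      linarith)
    rw [sub_self, abs_zero] at h5
    linarith
  have hinf : (setOf Nat.Prime).Infinite := Nat.infinite_setOf_prime
  -- Bertrand
  obtain ⟨q, hq1, hq2, hq3⟩ := Nat.exists_prime_lt_and_le_two_mul (w / 2) (by omega)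
  have hqw : q < w := by
    rcases Nat.lt_or_ge q w with h6 | h6
    · exact h6
    · have h7 : q = w := by omega
      exact absurd (h7 ▸ hq1) hnp
  have hc : 0 < Nat.count Nat.Prime w := by
    have h8 : Nat.count Nat.Prime q < Nat.count Nat.Prime w := Nat.count_strict_mono hq1 hqw
    omega
  obtain ⟨n, hn⟩ : ∃ n, Nat.count Nat.Prime w = n + 1 := ⟨Nat.count Nat.Prime w - 1, by omega⟩
  have h1 : Nat.nth Nat.Prime n < w := Nat.nth_lt_of_lt_count (by omega)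
  have h2 : w ≤ Nat.nth Nat.Prime (n + 1) := by
    rw [← hn]
    exact Nat.le_nth_count hinf w
  have hpn : (Nat.nth Nat.Prime n).Prime := Nat.prime_nth_prime n
  have hpn1 : (Nat.nth Nat.Prime (n + 1)).Prime := Nat.prime_nth_prime (n + 1)
  have h3 : w < Nat.nth Nat.Prime (n + 1) := by
    rcases Nat.lt_or_ge w (Nat.nth Nat.Prime (n + 1)) with h6 | h6
    · exact h6
    · have h7 : w = Nat.nth Nat.Prime (n + 1) := le_antisymm h2 h6
      exact absurd (h7 ▸ hpn1) hnp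
  -- `q ≤ p_n`
  have h4 : q ≤ Nat.nth Nat.Prime n := by
    have h8 : Nat.count Nat.Prime q ≤ n := by
      have h9 : Nat.count Nat.Prime q < Nat.count Nat.Prime w := Nat.count_strict_mono hq1 hqw
      omega
    calc q = Nat.nth Nat.Prime (Nat.count Nat.Prime q) := (Nat.nth_count hq1).symm
      _ ≤ Nat.nth Nat.Prime n := (Nat.nth_monotone hinf) h8
  -- Bertrand above `w`
  obtain ⟨q', hq1', hq2', hq3'⟩ := Nat.exists_prime_lt_and_le_two_mul w (by omega)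
  have h5 : Nat.nth Nat.Prime (n + 1) ≤ q' := by
    have h8 : n + 1 ≤ Nat.count Nat.Prime q' := by
      rw [← hn]
      exact Nat.count_monotone _ hq2'.le
    calc Nat.nth Nat.Prime (n + 1) ≤ Nat.nth Nat.Prime (Nat.count Nat.Prime q') := (Nat.nth_monotone hinf) h8
      _ = q' := Nat.nth_count hq1'
  have hbig : (Z : ℝ) / 2 - 1 < Nat.nth Nat.Prime n := by
    have h9 : w < 2 * q + 1 := by omega
    have h10 : (w : ℝ) < 2 * q + 1 := by exact_mod_cast h9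
    have h11 : (q : ℝ) ≤ Nat.nth Nat.Prime n := by exact_mod_cast h4
    have h12 : (Z : ℝ) < w := by exact_mod_cast hZw
    linarith
  have g1 := hfar _ hpn hbig
  have g2 := hfar _ hpn1 (by
    have : (Nat.nth Nat.Prime n : ℝ) < Nat.nth Nat.Prime (n + 1) := by exact_mod_cast h1.trans h3
    linarith)
  rw [abs_of_neg (by
    have : (Nat.nth Nat.Prime n : ℝ) < w := by exact_mod_cast h1
    linarith)] at g1
  rw [abs_of_pos (by
    have : (w : ℝ) < Nat.nth Nat.Prime (n + 1) := by exact_mod_cast h3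
    linarith)] at g2
  refine ⟨n, by exact_mod_cast h1, by exact_mod_cast h3, ?_, ?_, ?_⟩
  · push_cast
    linarith
  · push_cast
    exact g2
  · exact_mod_cast h5.trans hq3'

/-- the difference of the square roots -/
lemma sqrt_gap (Z : ℕ) (hZ : 100 ≤ Z) (K : ℝ) (hK : 0 ≤ K) (v : ℤ) (hv : (Z : ℤ) < v)
    (h : ∀ n : ℤ, |(n : ℝ) - v| ≤ K → ∃ p : ℕ, p.Prime ∧ (p : ℝ) ≤ (Z : ℝ) ^ (1 / 10 : ℝ) ∧ (p : ℤ) ∣ n) :
    ∃ n : ℕ, (Nat.nth Nat.Prime n : ℤ) < v ∧ v < Nat.nth Nat.Prime (n + 1) ∧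
      K / 2 / √(v : ℝ) ≤ √(Nat.nth Nat.Prime (n + 1) : ℝ) - √(Nat.nth Nat.Prime n : ℝ) := by
  obtain ⟨n, h1, h2, h3, h4, h5⟩ := gap_of_iso Z hZ K hK v hv h
  refine ⟨n, h1, h2, ?_⟩
  obtain ⟨a, ha⟩ : ∃ a : ℝ, a = Nat.nth Nat.Prime n := ⟨_, rfl⟩
  obtain ⟨b, hb⟩ : ∃ b : ℝ, b = Nat.nth Nat.Prime (n + 1) := ⟨_, rfl⟩
  rw [← ha] at h3
  rw [← hb] at h4
  have h5' : b ≤ 2 * v := by
    rw [hb]
    exact_mod_cast h5
  rw [← ha, ← hb]
  have hv0 : (0 : ℝ) < v := by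
    have : (0 : ℤ) < v := by omega
    exact_mod_cast this
  have ha0 : 0 ≤ a := by rw [ha]; exact Nat.cast_nonneg _
  have hb0 : 0 < b := by linarith
  have hsb : 0 < √b := Real.sqrt_pos.2 hb0
  have hsv : 0 < √(v : ℝ) := Real.sqrt_pos.2 hv0
  have hsa : 0 ≤ √a := Real.sqrt_nonneg a
  have e1 : √b * √b = b := Real.mul_self_sqrt hb0.le
  have e2 : √a * √a = a := Real.mul_self_sqrt ha0
  have e3 : √(v : ℝ) * √(v : ℝ) = v := Real.mul_self_sqrt hv0.le
  have e4 : √a ≤ √b := Real.sqrt_le_sqrt (by linarith)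
  have e5 : √b ≤ 2 * √(v : ℝ) := by
    rw [show 2 * √(v : ℝ) = √(4 * v) by
      rw [Real.sqrt_mul (by norm_num), show (4 : ℝ) = 2 ^ 2 by norm_num, Real.sqrt_sq (by norm_num)]]
    exact Real.sqrt_le_sqrt (by linarith)
  have e6 : 2 * K ≤ (√b - √a) * (√b + √a) := by nlinarith
  have e7 : (√b - √a) * (√b + √a) ≤ (√b - √a) * (4 * √(v : ℝ)) :=
    mul_le_mul_of_nonneg_left (by linarith) (by linarith)
  rw [div_le_iff₀ hsv]
  linarith

end Pool.Agent.Q318.CO
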